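import Pool.Agent.H.MP_4a7829_pr.A

set_option autoImplicit false

namespace Pool.Agent.Results.MP_4a7829_pr.Yes

open Pool.Agent.H.MP_01c081_pr Pool.Agent.H.MP_4a7829_pr MeasureTheory

theorem result : ∃ Q, DPP Q ∧ Q {ω | ω 0 = true} ≠ 0 ∧
    ∀ᵐ ω ∂Palm Q, Full ω ∧ ∀ᵐ ξ ∂Xi, {n | walk (nbr ω) 0 ξ n = 0}.Finite :=
  ⟨QQ nT, dpp nT_n, Q0 nT_n, (palm nT_n).mono fun _ h => ⟨full nT_n h.1, trans' h.1 h.2⟩⟩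

end Pool.Agent.Results.MP_4a7829_pr.Yes
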